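import Pool.Agent.Helper7.OV.Goals1

/-!
# Packet OV-DIVC (MP_57df85_nt)

Division of a series by a polynomial.
-/

set_option autoImplicit false

open Finset

namespace Pool.Agent.Helper20.OV.DIVC

open Pool.Agent.Helper7.OV

/-- a lexicographically largest element of a nonempty finite set of pairs -/
lemma exists_lex_max (s : Finset (ℤ × ℤ)) (hs : s.Nonempty) :
    ∃ z ∈ s, ∀ w ∈ s, w.1 < z.1 ∨ (w.1 = z.1 ∧ w.2 ≤ z.2) := by
  obtain ⟨z, hz, hmax⟩ := s.exists_max_image (fun w => toLex w) hs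
  refine ⟨z, hz, fun w hw => ?_⟩
  have h := hmax w hw
  rw [Prod.Lex.toLex_le_toLex] at h
  exact h

theorem t : S_DIVC := by
  intro u v T F m ⟨i0, j0, hij, hw0⟩ hfin hC k l hkl
  by_contra hm
  -- the set of the monomials of small weight in the series
  set wt : ℤ × ℤ → ℤ := fun z => u * z.1 + v * z.2 with hwt
  set A : Finset (ℤ × ℤ) := (hfin (u * k + v * l)).toFinset with hA
  have hAmem : ∀ z : ℤ × ℤ, z ∈ A ↔ (wt z ≤ u * k + v * l ∧ m z.1 z.2 ≠ 0) := by
    intro z; simp [hA, hwt]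
  have hAne : A.Nonempty := ⟨(k, l), by rw [hAmem]; exact ⟨le_rfl, hm⟩⟩
  obtain ⟨z0, hz0, hmin⟩ := A.exists_min_image wt hAne
  have hz0' := (hAmem z0).1 hz0
  have hlow : ∀ z : ℤ × ℤ, m z.1 z.2 ≠ 0 → wt z0 ≤ wt z := by
    intro z hz
    by_contra hlt
    push Not at hlt
    have : z ∈ A := by rw [hAmem]; exact ⟨by linarith [hz0'.1], hz⟩
    exact absurd (hmin z this) (by linarith)
  set M0 : Finset (ℤ × ℤ) := A.filter (fun z => wt z = wt z0) with hM0
  have hM0ne : M0.Nonempty := ⟨z0, by simp [hM0, hz0]⟩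
  obtain ⟨z2, hz2, hlex2⟩ := exists_lex_max M0 hM0ne
  -- the monomials of the polynomial
  set B : Finset (ℤ × ℤ) := (F.support.biUnion fun j => (F.coeff j).support.image
    fun i => (((i : ℕ) : ℤ), ((j : ℕ) : ℤ))) with hB
  have hBmem : ∀ i j : ℕ, (((i : ℕ) : ℤ), ((j : ℕ) : ℤ)) ∈ B ↔ co F i j ≠ 0 := by
    intro i j
    simp only [hB, mem_biUnion, mem_image, Polynomial.mem_support_iff, Prod.mk.injEq, Nat.cast_inj]
    constructor
    · rintro ⟨j', _, i', hi', rfl, rfl⟩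
      exact hi'
    · intro h
      refine ⟨j, ?_, i, h, rfl, rfl⟩
      intro h0
      apply h
      unfold co
      rw [h0]; simp
  have hBcast : ∀ z ∈ B, ∃ i j : ℕ, z = (((i : ℕ) : ℤ), ((j : ℕ) : ℤ)) ∧ co F i j ≠ 0 := by
    intro z hz
    have hz' := hz
    simp only [hB, mem_biUnion, mem_image] at hz
    obtain ⟨j, _, i, _, rfl⟩ := hz
    exact ⟨i, j, rfl, (hBmem i j).1 hz'⟩
  have hBne : B.Nonempty := ⟨_, (hBmem i0 j0).2 hij⟩
  obtain ⟨y0, hy0, hminB⟩ := B.exists_min_image wt hBne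
  have hc0 : wt y0 ≤ 0 := le_trans (hminB _ ((hBmem i0 j0).2 hij)) hw0
  set F0 : Finset (ℤ × ℤ) := B.filter (fun z => wt z = wt y0) with hF0
  have hF0ne : F0.Nonempty := ⟨y0, by simp [hF0, hy0]⟩
  obtain ⟨z1, hz1, hlex1⟩ := exists_lex_max F0 hF0ne
  obtain ⟨hz1B, hz1w⟩ := mem_filter.1 hz1
  obtain ⟨hz2A, hz2w⟩ := mem_filter.1 hz2
  obtain ⟨a, b, hz1e, hco⟩ := hBcast z1 hz1B
  have hz1a : z1.1 = a := by rw [hz1e]
  have hz1b : z1.2 = b := by rw [hz1e]
  have hm2 : m z2.1 z2.2 ≠ 0 := ((hAmem z2).1 hz2A).2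
  -- only one term of the product survives
  have hterm : ∀ i j : ℕ, (i ≠ a ∨ j ≠ b) →
      (co F i j : ℚ) * m (z1.1 + z2.1 - i) (z1.2 + z2.2 - j) = 0 := by
    intro i j hne
    by_contra hnz
    have h1 : co F i j ≠ 0 := by
      intro h; apply hnz; rw [h]; simp
    have h2 : m (z1.1 + z2.1 - i) (z1.2 + z2.2 - j) ≠ 0 := by
      intro h; apply hnz; rw [h]; simp
    have hB1 : (((i : ℕ) : ℤ), ((j : ℕ) : ℤ)) ∈ B := (hBmem i j).2 h1
    have hw1 := hminB _ hB1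
    have hw2 := hlow (z1.1 + z2.1 - i, z1.2 + z2.2 - j) h2
    have e1 : wt (z1.1 + z2.1 - i, z1.2 + z2.2 - j) = wt z1 + wt z2 - wt (((i : ℕ) : ℤ), ((j : ℕ) : ℤ)) := by
      simp only [hwt]; ring
    rw [e1] at hw2
    have hwij : wt (((i : ℕ) : ℤ), ((j : ℕ) : ℤ)) = wt y0 := by
      apply le_antisymm _ hw1
      rw [hz1w, hz2w] at hw2
      linarith
    have hF : (((i : ℕ) : ℤ), ((j : ℕ) : ℤ)) ∈ F0 := mem_filter.2 ⟨hB1, hwij⟩
    have hl1 := hlex1 _ hF
    have hwz : wt (z1.1 + z2.1 - i, z1.2 + z2.2 - j) = wt z0 := by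
      rw [e1, hwij, hz1w, hz2w]; ring
    have hMz : (z1.1 + z2.1 - i, z1.2 + z2.2 - j) ∈ M0 := by
      refine mem_filter.2 ⟨(hAmem _).2 ⟨?_, h2⟩, hwz⟩
      rw [hwz]; exact hz0'.1
    have hl2 := hlex2 _ hMz
    simp only at hl1 hl2
    rw [hz1a, hz1b] at hl1 hl2
    rcases hne with hne | hne <;> omega
  have hsum : act F m (z1.1 + z2.1) (z1.2 + z2.2) = (co F a b : ℚ) * m z2.1 z2.2 := by
    unfold act
    have hb : b ∈ range (F.natDegree + 1) := by
      rw [mem_range, Nat.lt_succ_iff]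
      apply Polynomial.le_natDegree_of_ne_zero
      intro h0
      apply hco
      unfold co
      rw [h0]; simp
    have ha : a ∈ range ((F.coeff b).natDegree + 1) := by
      rw [mem_range, Nat.lt_succ_iff]
      exact Polynomial.le_natDegree_of_ne_zero hco
    rw [sum_eq_single_of_mem b hb, sum_eq_single_of_mem a ha]
    · rw [hz1a, hz1b]
      congr 2 <;> ring
    · intro i _ hi
      exact hterm i b (Or.inl hi)
    · intro j _ hj
      apply sum_eq_zero
      intro i _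
      exact hterm i j (Or.inr hj)
  have hlt : u * (z1.1 + z2.1) + v * (z1.2 + z2.2) < T := by
    have e : u * (z1.1 + z2.1) + v * (z1.2 + z2.2) = wt z1 + wt z2 := by simp only [hwt]; ring
    rw [e, hz1w, hz2w]
    linarith [hz0'.1]
  have h0 := hC _ _ hlt
  rw [hsum] at h0
  rcases mul_eq_zero.1 h0 with h | h
  · exact hco (by exact_mod_cast h)
  · exact hm2 h

end Pool.Agent.Helper20.OV.DIVC
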