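import Pool.Agent.Helper84.OV.Zero

/-!
# Packet OV-FZR (MP_57df85_nt), zero estimate
-/

set_option autoImplicit false

open Finset

namespace Pool.Agent.Helper20.OV.FZR

open Pool.Agent.Helper84.OV

lemma dvd_dd {k : ℕ} {g : PowerSeries ℚ} (h : PowerSeries.X ^ (k + 1) ∣ g) : PowerSeries.X ^ k ∣ dd g := by
  rw [PowerSeries.X_pow_dvd_iff] at h ⊢
  intro m hm
  rw [PowerSeries.coeff_derivative, h (m + 1) (by omega), zero_mul]

lemma dd_C_mul (u : ℚ) (g : PowerSeries ℚ) : dd (PowerSeries.C u * g) = PowerSeries.C u * dd g := by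
  rw [← PowerSeries.smul_eq_C_mul, ← PowerSeries.smul_eq_C_mul]
  exact (PowerSeries.derivative ℚ).map_smul u g

lemma dd_add (f g : PowerSeries ℚ) : dd (f + g) = dd f + dd g := (PowerSeries.derivative ℚ).map_add f g

lemma C_mul_dvd {a : ℚ} (ha : a ≠ 0) {P g : PowerSeries ℚ} (h : P ∣ PowerSeries.C a * g) : P ∣ g := by
  have h1 : g = PowerSeries.C a⁻¹ * (PowerSeries.C a * g) := by
    rw [← mul_assoc, ← map_mul, inv_mul_cancel₀ ha, map_one, one_mul]
  rw [h1]
  exact Dvd.dvd.mul_left h _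

lemma two (hLD : S_LD2) (g h F : PowerSeries ℚ) (a b : ℚ) (k : ℕ)
    (hF : F = PowerSeries.C a * g + PowerSeries.C b * h)
    (hd : PowerSeries.X ^ (k + 2) ∣ F)
    (hg : PowerSeries.X ^ k ∣ g → g = 0) (hh : PowerSeries.X ^ k ∣ h → h = 0)
    (hw : PowerSeries.X ^ k ∣ g * dd h - dd g * h → g * dd h - dd g * h = 0) : F = 0 := by
  have hd0 : PowerSeries.X ^ k ∣ F := (pow_dvd_pow _ (by omega)).trans hd
  have hd1 : PowerSeries.X ^ k ∣ dd F := dvd_dd ((pow_dvd_pow _ (by omega)).trans hd)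
  have hF' : dd F = PowerSeries.C a * dd g + PowerSeries.C b * dd h := by
    rw [hF, dd_add, dd_C_mul, dd_C_mul]
  -- if h = 0 or a = b = 0 this is immediate
  by_cases hab : a = 0 ∧ b = 0
  · rw [hF, hab.1, hab.2]; simp
  have hW : g * dd h - dd g * h = 0 := by
    apply hw
    by_cases ha : a = 0
    · have hb : b ≠ 0 := fun hb => hab ⟨ha, hb⟩
      have e : PowerSeries.C b * (g * dd h - dd g * h) = g * dd F - dd g * F := by
        rw [hF', hF, ha, map_zero]; ring
      apply C_mul_dvd hb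
      rw [e]
      exact dvd_sub (Dvd.dvd.mul_left hd1 _) (Dvd.dvd.mul_left hd0 _)
    · have e : PowerSeries.C a * (g * dd h - dd g * h) = F * dd h - dd F * h := by
        rw [hF', hF]; ring
      apply C_mul_dvd ha
      rw [e]
      exact dvd_sub (Dvd.dvd.mul_right hd0 _) (Dvd.dvd.mul_right hd1 _)
  by_cases h0 : h = 0
  · by_cases ha : a = 0
    · rw [hF, h0, ha]; simp
    · have : PowerSeries.X ^ k ∣ g := by
        apply C_mul_dvd ha
        have e : PowerSeries.C a * g = F := by rw [hF, h0]; simp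
        rw [e]; exact hd0
      rw [hF, h0, hg this]; simp
  · obtain ⟨c, hc⟩ := hLD g h h0 (sub_eq_zero.1 hW)
    have e : F = PowerSeries.C (a * c + b) * h := by
      rw [hF, hc, map_add, map_mul]; ring
    by_cases hm : a * c + b = 0
    · rw [e, hm]; simp
    · exfalso
      apply h0
      apply hh
      apply C_mul_dvd hm
      rw [← e]; exact hd0

theorem t : S_FZR := by
  intro hLD2 hLD3 f u v k hf hw2 hw3 hF
  set F := f 0 + PowerSeries.C u * f 1 + PowerSeries.C v * f 2 with hFdef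
  have hd0 : PowerSeries.X ^ k ∣ F := (pow_dvd_pow _ (by omega)).trans hF
  have hd1' : PowerSeries.X ^ (k + 1) ∣ dd F := dvd_dd hF
  have hd1 : PowerSeries.X ^ k ∣ dd F := (pow_dvd_pow _ (by omega)).trans hd1'
  have hd2 : PowerSeries.X ^ k ∣ dd (dd F) := dvd_dd hd1'
  have e1 : dd F = dd (f 0) + PowerSeries.C u * dd (f 1) + PowerSeries.C v * dd (f 2) := by
    rw [hFdef, dd_add, dd_add, dd_C_mul, dd_C_mul]
  have e2 : dd (dd F) = dd (dd (f 0)) + PowerSeries.C u * dd (dd (f 1)) + PowerSeries.C v * dd (dd (f 2)) := by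
    rw [e1, dd_add, dd_add, dd_C_mul, dd_C_mul]
  have hW3 : w3 f (fun i => dd (f i)) (fun i => dd (dd (f i))) = 0 := by
    apply hw3
    have e : w3 f (fun i => dd (f i)) (fun i => dd (dd (f i))) =
        F * (dd (f 1) * dd (dd (f 2)) - dd (f 2) * dd (dd (f 1)))
        - dd F * (f 1 * dd (dd (f 2)) - f 2 * dd (dd (f 1)))
        + dd (dd F) * (f 1 * dd (f 2) - f 2 * dd (f 1)) := by
      rw [e2, e1, hFdef]
      simp only [w3]
      ring
    rw [e]
    exact dvd_add (dvd_sub (Dvd.dvd.mul_right hd0 _) (Dvd.dvd.mul_right hd1 _)) (Dvd.dvd.mul_right hd2 _)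
  obtain ⟨c, hc, hsum⟩ := hLD3 hLD2 f hW3
  rw [Fin.sum_univ_three] at hsum
  have hcm : c 0 ≠ 0 ∨ c 1 ≠ 0 ∨ c 2 ≠ 0 := by
    by_contra hne
    push Not at hne
    apply hc
    funext i
    fin_cases i
    · exact hne.1
    · exact hne.2.1
    · exact hne.2.2
  have key : ∀ (x : ℚ) (g g1 g2 : PowerSeries ℚ) (x1 x2 : ℚ), x ≠ 0 →
      PowerSeries.C x * g + PowerSeries.C x1 * g1 + PowerSeries.C x2 * g2 = 0 →
      g = PowerSeries.C (-(x1 / x)) * g1 + PowerSeries.C (-(x2 / x)) * g2 := by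
    intro x g g1 g2 x1 x2 hx hs
    have h1 : g = PowerSeries.C x⁻¹ * (PowerSeries.C x * g) := by
      rw [← mul_assoc, ← map_mul, inv_mul_cancel₀ hx, map_one, one_mul]
    have h2 : PowerSeries.C x * g = -(PowerSeries.C x1 * g1 + PowerSeries.C x2 * g2) := by
      linear_combination hs
    rw [h1, h2, div_eq_mul_inv, div_eq_mul_inv]
    simp only [map_neg, map_mul]
    ring
  rcases hcm with h | h | h
  · -- eliminate f 0
    have hk := key (c 0) (f 0) (f 1) (f 2) (c 1) (c 2) h hsum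
    refine two hLD2 (f 1) (f 2) F (-(c 1 / c 0) + u) (-(c 2 / c 0) + v) k ?_ hF (hf 1) (hf 2) (hw2 1 2)
    rw [hFdef]
    nth_rewrite 1 [hk]
    simp only [map_add]
    ring
  · have hk := key (c 1) (f 1) (f 0) (f 2) (c 0) (c 2) h (by linear_combination hsum)
    refine two hLD2 (f 0) (f 2) F (1 + u * (-(c 0 / c 1))) (u * (-(c 2 / c 1)) + v) k ?_ hF (hf 0) (hf 2)
      (hw2 0 2)
    rw [hFdef]
    nth_rewrite 1 [hk]
    simp only [map_add, map_mul, map_one]
    ring
  · have hk := key (c 2) (f 2) (f 0) (f 1) (c 0) (c 1) h (by linear_combination hsum)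
    refine two hLD2 (f 0) (f 1) F (1 + v * (-(c 0 / c 2))) (u + v * (-(c 1 / c 2))) k ?_ hF (hf 0) (hf 1)
      (hw2 0 1)
    rw [hFdef]
    nth_rewrite 1 [hk]
    simp only [map_add, map_mul, map_one]
    ring

end Pool.Agent.Helper20.OV.FZR
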